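import Mathlib
import Pool.Agent.R727.ThompsonMain

set_option autoImplicit false

/-!
# MP_bd6a20_al, Q1: every boomerang subgroup of Thompson's group `F` is normal
-/

namespace Pool.Agent.Results.MP_bd6a20_al.Normal

open Filter Topology Set unitInterval
open Pool.Agent.R727.Thompson (FR IsF ap)

/-- `γ` is a recurrent direction for the subgroup `Δ`: for all finite sets `A ⊆ Δ` and
`B ⊆ Γ \ Δ` there is `n ≥ 1` with `A ⊆ γ ^ n Δ γ ^ (-n)` and `B ∩ γ ^ n Δ γ ^ (-n) = ∅`. -/
def IsRecurrentDirection {Γ : Type*} [Group Γ] (Δ : Subgroup Γ) (γ : Γ) : Prop :=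
  ∀ A B : Set Γ, A.Finite → B.Finite → A ⊆ (Δ : Set Γ) → B ⊆ (Δ : Set Γ)ᶜ →
    ∃ n : ℕ, 1 ≤ n ∧ A ⊆ {g | ∃ δ ∈ Δ, g = γ ^ n * δ * (γ ^ n)⁻¹} ∧
      B ∩ {g | ∃ δ ∈ Δ, g = γ ^ n * δ * (γ ^ n)⁻¹} = ∅

/-- `Δ` is a boomerang subgroup: every element of the group is a recurrent direction. -/
def IsBoomerang {Γ : Type*} [Group Γ] (Δ : Subgroup Γ) : Prop :=
  ∀ γ : Γ, IsRecurrentDirection Δ γ

/-- `f` is an orientation preserving piecewise linear homeomorphism of `[0, 1]` with finitely many
breakpoints (all contained in the finite set `S`), all of them dyadic rationals, and all slopes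
integer powers of `2`. -/
def IsThompson (f : I ≃ₜ I) : Prop :=
  StrictMono f ∧ ∃ S : Set ℝ, S.Finite ∧ (∀ s ∈ S, ∃ (a : ℤ) (n : ℕ), s = a / 2 ^ n) ∧
    ∀ x : I, (x : ℝ) ∉ S → ∃ k : ℤ, ∀ᶠ y : I in 𝓝 x,
      (f y : ℝ) = (f x : ℝ) + (2 : ℝ) ^ k * ((y : ℝ) - (x : ℝ))

lemma ap_mem_I (g : FR) {x : ℝ} (hx : x ∈ Icc (0 : ℝ) 1) : ap g x ∈ Icc (0 : ℝ) 1 := by
  constructor
  · have := (Pool.Agent.R727.Thompson.ap_le g).mpr hx.1
    rwa [Pool.Agent.R727.Thompson.ap_left g le_rfl] at this
  · have := (Pool.Agent.R727.Thompson.ap_le g).mpr hx.2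
    rwa [Pool.Agent.R727.Thompson.ap_right g le_rfl] at this

/-- Restriction to the unit interval. -/
def res (g : FR) : I ≃ₜ I where
  toFun x := ⟨ap g x, ap_mem_I g x.2⟩
  invFun x := ⟨ap g⁻¹ x, ap_mem_I g⁻¹ x.2⟩
  left_inv x := by ext; simp
  right_inv x := by ext; simp
  continuous_toFun := by
    have := Pool.Agent.R727.Thompson.ap_cont g
    fun_prop
  continuous_invFun := by
    have := Pool.Agent.R727.Thompson.ap_cont g⁻¹
    fun_prop

lemma res_apply (g : FR) (x : I) : (res g x : ℝ) = ap g x := rfl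

/-- Restriction to the unit interval as a homomorphism. -/
def resHom : FR →* (I ≃ₜ I) where
  toFun := res
  map_one' := by
    ext x
    rfl
  map_mul' g h := by
    ext x
    rfl

/-- Extension by the identity. -/
noncomputable def extFun (f : I → I) (x : ℝ) : ℝ :=
  if h : x ∈ Icc (0 : ℝ) 1 then (f ⟨x, h⟩ : ℝ) else x

lemma extFun_of_mem {f : I → I} {x : ℝ} (h : x ∈ Icc (0 : ℝ) 1) :
    extFun f x = f ⟨x, h⟩ := dif_pos h

lemma extFun_coe {f : I → I} (x : I) : extFun f x = f x := dif_pos x.2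

lemma extFun_of_not {f : I → I} {x : ℝ} (h : x ∉ Icc (0 : ℝ) 1) :
    extFun f x = x := dif_neg h

lemma extFun_extFun {f g : I → I} (h : ∀ x, f (g x) = x) (x : ℝ) :
    extFun f (extFun g x) = x := by
  by_cases hx : x ∈ Icc (0 : ℝ) 1
  · rw [extFun_of_mem hx, extFun_coe, h]
  · rw [extFun_of_not hx, extFun_of_not hx]

/-- Extension by the identity as a permutation. -/
noncomputable def extPerm (f : I ≃ₜ I) : Equiv.Perm ℝ where
  toFun := extFun f
  invFun := extFun f.symm
  left_inv := extFun_extFun (by simp)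
  right_inv := extFun_extFun (by simp)

lemma extPerm_apply (f : I ≃ₜ I) (x : ℝ) : extPerm f x = extFun f x := rfl

lemma isF_ext {f : I ≃ₜ I} (hf : IsThompson f) : IsF (extPerm f) := by
  obtain ⟨hm, S, hS, hd, hp⟩ := hf
  have hmono : StrictMono (extFun f) := by
    intro x y hxy
    by_cases hx : x ∈ Icc (0 : ℝ) 1
    · by_cases hy : y ∈ Icc (0 : ℝ) 1
      · rw [extFun_of_mem hx, extFun_of_mem hy]
        exact hm (show (⟨x, hx⟩ : I) < ⟨y, hy⟩ from hxy)
      · rw [extFun_of_mem hx, extFun_of_not hy]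
        have h1 : 1 < y := by
          by_contra h
          exact hy ⟨hx.1.trans hxy.le, not_lt.mp h⟩
        exact lt_of_le_of_lt (f ⟨x, hx⟩).2.2 h1
    · by_cases hy : y ∈ Icc (0 : ℝ) 1
      · rw [extFun_of_not hx, extFun_of_mem hy]
        have h1 : x < 0 := by
          by_contra h
          exact hx ⟨not_lt.mp h, hxy.le.trans hy.2⟩
        exact lt_of_lt_of_le h1 (f ⟨y, hy⟩).2.1
      · rwa [extFun_of_not hx, extFun_of_not hy]
  have h0 : f 0 = 0 := by
    obtain ⟨z, hz⟩ := f.surjective 0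
    apply le_antisymm
    · calc f 0 ≤ f z := hm.monotone (show (0 : I) ≤ z from z.2.1)
        _ = 0 := hz
    · exact (f 0).2.1
  have h1 : f 1 = 1 := by
    obtain ⟨z, hz⟩ := f.surjective 1
    apply le_antisymm
    · exact (f 1).2.2
    · calc (1 : I) = f z := hz.symm
        _ ≤ f 1 := hm.monotone (show z ≤ (1 : I) from z.2.2)
  refine ⟨hmono, ?_, ?_, ?_⟩
  · intro x hx
    rw [extPerm_apply]
    rcases hx.eq_or_lt with rfl | hx
    · have := extFun_coe (f := f) 0
      rw [h0] at this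
      simpa using this
    · exact extFun_of_not fun h => absurd h.1 (not_le.mpr hx)
  · intro x hx
    rw [extPerm_apply]
    rcases hx.eq_or_lt with rfl | hx
    · have := extFun_coe (f := f) 1
      rw [h1] at this
      simpa using this
    · exact extFun_of_not fun h => absurd h.2 (not_le.mpr hx)
  · classical
    refine ⟨hS.toFinset ∪ {0, 1}, ?_, ?_⟩
    · intro s hs
      simp only [Finset.mem_union, Set.Finite.mem_toFinset, Finset.mem_insert,
        Finset.mem_singleton] at hs
      rcases hs with hs | rfl | rfl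
      · exact hd s hs
      · exact Pool.Agent.R727.Thompson.IsDyadic.zero
      · exact Pool.Agent.R727.Thompson.IsDyadic.one
    · intro x hx
      simp only [Finset.mem_union, Set.Finite.mem_toFinset, Finset.mem_insert,
        Finset.mem_singleton, not_or] at hx
      obtain ⟨hxS, hx0, hx1⟩ := hx
      rcases lt_or_gt_of_ne hx0 with hx0 | hx0
      · refine ⟨0, ?_⟩
        filter_upwards [Iio_mem_nhds hx0] with y hy
        rw [extPerm_apply, extPerm_apply, extFun_of_not fun h => absurd h.1 (not_le.mpr hy),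
          extFun_of_not fun h => absurd h.1 (not_le.mpr hx0)]
        simp
      rcases lt_or_gt_of_ne hx1 with hx1 | hx1
      · have hxI : x ∈ Icc (0 : ℝ) 1 := ⟨hx0.le, hx1.le⟩
        obtain ⟨k, hk⟩ := hp ⟨x, hxI⟩ hxS
        refine ⟨k, ?_⟩
        have hmem : {a : ℝ | a ∈ Icc (0 : ℝ) 1} ∈ 𝓝 x := Icc_mem_nhds hx0 hx1
        rw [← map_nhds_subtype_coe_eq_nhds hxI hmem, eventually_map]
        filter_upwards [hk] with y hy
        rw [extPerm_apply, extPerm_apply, extFun_coe, extFun_of_mem hxI]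
        exact hy
      · refine ⟨0, ?_⟩
        filter_upwards [Ioi_mem_nhds hx1] with y hy
        rw [extPerm_apply, extPerm_apply, extFun_of_not fun h => absurd h.2 (not_le.mpr hy),
          extFun_of_not fun h => absurd h.2 (not_le.mpr hx1)]
        simp

lemma isThompson_iff (f : I ≃ₜ I) : IsThompson f ↔ f ∈ resHom.range := by
  constructor
  · intro hf
    refine ⟨⟨extPerm f, isF_ext hf⟩, ?_⟩
    ext x
    exact extFun_coe x
  · rintro ⟨g, rfl⟩
    obtain ⟨S, hS, hp⟩ := g.2.pl
    refine ⟨fun x y hxy => (Pool.Agent.R727.Thompson.ap_lt g).mpr hxy, ↑S, S.finite_toSet, hS, ?_⟩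
    intro x hx
    obtain ⟨k, hk⟩ := hp x (by simpa using hx)
    exact ⟨k, (continuous_subtype_val.tendsto x).eventually hk⟩

/-- **Thompson's group `F`**: the group, under composition, of all orientation preserving
piecewise linear homeomorphisms of `[0, 1]` with finitely many breakpoints, all breakpoints at
dyadic rationals, and all slopes integer powers of `2`. -/
def F : Subgroup (I ≃ₜ I) where
  carrier := {f | IsThompson f}
  mul_mem' {f g} hf hg := (isThompson_iff _).mpr
    (mul_mem ((isThompson_iff f).mp hf) ((isThompson_iff g).mp hg))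
  one_mem' := (isThompson_iff _).mpr (one_mem _)
  inv_mem' {f} hf := (isThompson_iff _).mpr (inv_mem ((isThompson_iff f).mp hf))

/-- Restriction, as a homomorphism to `F`. -/
def φ : FR →* F := resHom.codRestrict F fun g => (isThompson_iff _).mpr ⟨g, rfl⟩

lemma φ_surjective : Function.Surjective φ := by
  rintro ⟨f, hf⟩
  obtain ⟨g, hg⟩ := (isThompson_iff f).mp hf
  exact ⟨g, Subtype.ext hg⟩

lemma boom_comap {Δ : Subgroup F} (h : IsBoomerang Δ) :
    Pool.Agent.R727.Thompson.Boom (Δ.comap φ) := by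
  have key : ∀ (c n : F), c ∈ {g | ∃ δ ∈ Δ, g = n * δ * n⁻¹} ↔ n⁻¹ * c * n ∈ Δ := by
    intro c n
    constructor
    · rintro ⟨δ, hδ, rfl⟩
      have : n⁻¹ * (n * δ * n⁻¹) * n = δ := by group
      rwa [this]
    · intro hc
      exact ⟨_, hc, by group⟩
  constructor
  · intro γ c hc g hg
    obtain ⟨n, hn, hA, hB⟩ := h (φ γ) {φ c} {φ g} (finite_singleton _) (finite_singleton _)
      (by simpa using hc) (by simpa using hg)
    refine ⟨n, hn, ?_, ?_⟩
    · have := (key _ _).mp (hA rfl)
      rw [Subgroup.mem_comap]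
      simpa using this
    · intro hmem
      rw [Subgroup.mem_comap] at hmem
      have h2 : φ g ∈ {g | ∃ δ ∈ Δ, g = φ γ ^ n * δ * (φ γ ^ n)⁻¹} :=
        (key _ _).mpr (by simpa using hmem)
      have h3 : φ g ∈ {φ g} ∩ {g | ∃ δ ∈ Δ, g = φ γ ^ n * δ * (φ γ ^ n)⁻¹} := ⟨rfl, h2⟩
      rw [hB] at h3
      exact h3
  · intro γ c hc
    obtain ⟨n, hn, hA, -⟩ := h (φ γ) {φ c} ∅ (finite_singleton _) finite_empty
      (by simpa using hc) (by simp)
    refine ⟨n, hn, ?_⟩
    have := (key _ _).mp (hA rfl)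
    rw [Subgroup.mem_comap]
    simpa using this

/-- **Every boomerang subgroup of Thompson's group `F` is normal**; in fact it is trivial or it
contains the commutator subgroup of `F`. -/
theorem result (Δ : Subgroup F) (h : IsBoomerang Δ) :
    Δ.Normal ∧ (Δ = ⊥ ∨ commutator F ≤ Δ) := by
  have h1 : Δ = ⊥ ∨ commutator F ≤ Δ := by
    have hΔ : (Δ.comap φ).map φ = Δ := Subgroup.map_comap_eq_self_of_surjective φ_surjective Δ
    by_cases hb : Δ.comap φ = ⊥
    · left
      rw [← hΔ, hb, Subgroup.map_bot]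
    · right
      have := Pool.Agent.R727.Thompson.commutator_le_of_boom (boom_comap h) hb
      have h2 := Subgroup.map_mono (f := φ) this
      rw [hΔ, commutator_def, Subgroup.map_commutator,
        Subgroup.map_top_of_surjective φ φ_surjective] at h2
      exact h2
  refine ⟨?_, h1⟩
  rcases h1 with rfl | h1
  · infer_instance
  · constructor
    intro n hn g
    have h2 : g * n * g⁻¹ * n⁻¹ ∈ Δ := h1 (Subgroup.commutator_mem_commutator
      (Subgroup.mem_top g) (Subgroup.mem_top n))
    have h3 := mul_mem h2 hn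
    rwa [inv_mul_cancel_right] at h3

end Pool.Agent.Results.MP_bd6a20_al.Normal
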